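import Pool.Agent.W805.LR.Stm5

/-!
# Project PD, part FB: the core estimate for given sampled points
-/

set_option autoImplicit false
set_option linter.unusedSectionVars false

namespace Pool.Agent.W397.PD.FB

open Finset Equiv
open Pool.Agent.W805.LR Pool.Agent.W805.PD

section basic

variable {V : Type} [Fintype V] [DecidableEq V]

lemma tr_fix (htr : S_tr) {g : Perm V} {A : Finset V} {x : V} (hx : g x = x) : tr g A x = x := by
  obtain ⟨-, -, -, -, t5, -, -, -, t9⟩ := htr V
  by_cases hA : x ∈ A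
  · have hz : tr g A x ∈ A := by
      by_contra h
      have h1 := t5 g A _ h
      have h2 : tr g A x = x := (tr g A).injective h1
      exact h (by rw [h2]; exact hA)
    have h1 : (tr g A).SameCycle x (tr g A x) := ⟨1, by simp⟩
    obtain ⟨n, hn⟩ := (t9 g A x _ hA hz).1 h1
    rw [Equiv.Perm.zpow_apply_eq_self_of_apply_eq_self hx] at hn
    exact hn.symm
  · exact t5 g A x hA

lemma avgM_congr {E : Finset V} {F F' : Perm V → ℝ} (h : ∀ α ∈ matchings E, F α = F' α) :
    avgM E F = avgM E F' := by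
  unfold avgM
  rw [Finset.sum_congr rfl h]

lemma abs_avgM_le {E : Finset V} {F : Perm V → ℝ} {c : ℝ} (hc : 0 ≤ c)
    (h : ∀ α ∈ matchings E, |F α| ≤ c) : |avgM E F| ≤ c := by
  unfold avgM
  rw [abs_div, Nat.abs_cast]
  refine div_le_of_le_mul₀ (Nat.cast_nonneg _) hc ?_
  calc |∑ α ∈ matchings E, F α| ≤ ∑ α ∈ matchings E, |F α| := Finset.abs_sum_le_sum_abs _ _
    _ ≤ ∑ _α ∈ matchings E, c := Finset.sum_le_sum h
    _ = c * (matchings E).card := by rw [Finset.sum_const, nsmul_eq_mul, mul_comm]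

lemma avgM_sub_le {E : Finset V} (hne : (matchings E).Nonempty) {F b : Perm V → ℝ} {c : ℝ}
    (h : ∀ α ∈ matchings E, |F α - c| ≤ b α) : |avgM E F - c| ≤ avgM E b := by
  have hn : (0 : ℝ) < (matchings E).card := by exact_mod_cast hne.card_pos
  have h1 : avgM E F - c = (∑ α ∈ matchings E, (F α - c)) / (matchings E).card := by
    unfold avgM
    rw [Finset.sum_sub_distrib, Finset.sum_const, nsmul_eq_mul]
    field_simp
  rw [h1, abs_div, Nat.abs_cast]
  unfold avgM
  apply div_le_div_of_nonneg_right _ hn.le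
  exact (Finset.abs_sum_le_sum_abs _ _).trans (Finset.sum_le_sum h)

/-- The permutations fixing everything outside `A`. -/
def fixp (A : Finset V) : Finset (Perm V) := univ.filter fun σ => ∀ x, x ∉ A → σ x = x

lemma mem_fixp {A : Finset V} {σ : Perm V} : σ ∈ fixp A ↔ ∀ x, x ∉ A → σ x = x := by
  simp [fixp]

lemma card_fixp (A : Finset V) : (fixp A).card = A.card.factorial := by
  have e := Equiv.Perm.subtypeEquivSubtypePerm (fun x => x ∈ A)
  have h1 : Fintype.card {f : Perm V // ∀ a, ¬ (a ∈ A) → f a = a} = A.card.factorial := by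
    rw [← Fintype.card_congr e, Fintype.card_perm, Fintype.card_coe]
  rw [← h1, Fintype.card_subtype]
  rfl

lemma avgM_tr (htr : S_tr) (ρ : Perm V) (E S : Finset V) (F : Perm V → ℝ) :
    avgM E (fun β => F (tr (β * ρ) S)) = ∑ σ ∈ fixp S, F σ * favg ρ E S σ := by
  obtain ⟨-, -, -, -, t5, -, -, -, -⟩ := htr V
  unfold favg avgM
  simp_rw [mul_div_assoc', Finset.mul_sum]
  rw [← Finset.sum_div, Finset.sum_comm]
  congr 1
  apply Finset.sum_congr rfl
  intro β _
  have hmem : tr (β * ρ) S ∈ fixp S := mem_fixp.2 fun x hx => t5 _ _ _ hx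
  rw [Finset.sum_eq_single_of_mem _ hmem]
  · rw [if_pos rfl, mul_one]
  · intro σ _ hσ
    rw [if_neg (Ne.symm hσ), mul_zero]

end basic

section main

variable {V : Type} [Fintype V] [DecidableEq V] {m K : ℕ}

lemma disj (y : Ix m K ↪ V) : Disjoint (Ey y) (Sy y) := by
  rw [Finset.disjoint_left]
  intro x hx hx'
  simp only [Ey, Sy, Finset.mem_image, Finset.mem_univ, true_and] at hx hx'
  obtain ⟨i, rfl⟩ := hx
  obtain ⟨j, hj⟩ := hx'
  exact absurd (y.injective hj) (by simp)

lemma card_Ey (y : Ix m K ↪ V) : (Ey y).card = K * 2 := by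
  unfold Ey
  rw [Finset.card_image_of_injective]
  · simp
  · intro a b hab
    exact Sum.inr_injective (y.injective hab)

lemma card_Sy (y : Ix m K ↪ V) : (Sy y).card = m := by
  unfold Sy
  rw [Finset.card_image_of_injective]
  · simp
  · intro a b hab
    exact Sum.inl_injective (y.injective hab)

/-- The test points. -/
def vv (y : Ix m K ↪ V) (i : Fin m) : V := y (Sum.inl i)

lemma vv_inj (y : Ix m K ↪ V) : Function.Injective (vv y) := fun _ _ hab =>
  Sum.inl_injective (y.injective hab)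

lemma S1y_eq (h : Perm V) (y : Ix m K ↪ V) : S1y h y = (Ay h y).image (vv y) := by
  ext x
  simp only [S1y, Sy, Ay, Finset.mem_filter, Finset.mem_image, Finset.mem_univ, true_and, vv]
  constructor
  · rintro ⟨⟨i, rfl⟩, hi⟩
    exact ⟨i, hi, rfl⟩
  · rintro ⟨i, hi, rfl⟩
    exact ⟨⟨i, rfl⟩, hi⟩

lemma card_S1y (h : Perm V) (y : Ix m K ↪ V) : (S1y h y).card = (Ay h y).card := by
  rw [S1y_eq, Finset.card_image_of_injective _ (vv_inj y)]

/-- The function of the trace. -/
def FF (G : (Fin m → Fin m → Prop) → ℝ) (y : Ix m K ↪ V) (τ : Perm V) : ℝ :=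
  G fun i j => τ.SameCycle (vv y i) (vv y j)

lemma pavg_eq (h : Perm V) (G : (Fin m → Fin m → Prop) → ℝ) (y : Ix m K ↪ V) :
    pavg (Ay h y) G = (∑ σ ∈ fixp (S1y h y), FF G y σ) / ((S1y h y).card.factorial : ℝ) := by
  unfold pavg
  rw [card_S1y]
  congr 1
  let f : Fin m ≃ {x // x ∈ Set.range (vv y)} := Equiv.ofInjective (vv y) (vv_inj y)
  have hf : ∀ i, ((f i : {x // x ∈ Set.range (vv y)}) : V) = vv y i := fun i => rfl
  have hinj : Function.Injective fun σ' : Perm (Fin m) => σ'.extendDomain f := fun a b hab =>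
    Equiv.Perm.extendDomainHom_injective f hab
  have himg : fixp (S1y h y) = (fixp (Ay h y)).image fun σ' : Perm (Fin m) => σ'.extendDomain f := by
    symm
    apply Finset.eq_of_subset_of_card_le
    · intro σ hσ
      obtain ⟨σ', hσ', rfl⟩ := Finset.mem_image.1 hσ
      rw [mem_fixp]
      intro x hx
      by_cases hr : x ∈ Set.range (vv y)
      · obtain ⟨i, rfl⟩ := hr
        rw [← hf i, Equiv.Perm.extendDomain_apply_image]
        have hi : i ∉ Ay h y := fun hi => hx (by
          rw [S1y_eq]; exact Finset.mem_image_of_mem _ hi)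
        rw [mem_fixp.1 hσ' i hi]
      · exact Equiv.Perm.extendDomain_apply_not_subtype σ' f hr
    · rw [Finset.card_image_of_injective _ hinj, card_fixp, card_fixp, card_S1y]
  rw [himg, Finset.sum_image (fun a _ b _ hab => hinj hab)]
  refine Finset.sum_congr (by ext σ; simp [fixp]) ?_
  intro σ' _
  unfold FF
  congr 1
  funext i j
  apply propext
  rw [← hf i, ← hf j, Equiv.Perm.sameCycle_extendDomain]

lemma abs_pavg_le (h : Perm V) {G : (Fin m → Fin m → Prop) → ℝ} (hG : ∀ r, |G r| ≤ 1)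
    (y : Ix m K ↪ V) : |pavg (Ay h y) G| ≤ 1 := by
  rw [pavg_eq, abs_div, Nat.abs_cast]
  have hpos : (0 : ℝ) < ((S1y h y).card.factorial : ℝ) := by
    exact_mod_cast Nat.factorial_pos _
  rw [div_le_one hpos, ← card_fixp]
  calc |∑ σ ∈ fixp (S1y h y), FF G y σ| ≤ ∑ σ ∈ fixp (S1y h y), |FF G y σ| :=
        Finset.abs_sum_le_sum_abs _ _
    _ ≤ ∑ _σ ∈ fixp (S1y h y), (1 : ℝ) := Finset.sum_le_sum fun σ _ => hG _
    _ = _ := by simp

/-- Reduction of the test function to the trace. -/
lemma rel_eq (htr : S_tr) (h : Perm V) (G : (Fin m → Fin m → Prop) → ℝ) (y : Ix m K ↪ V)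
    (α : Perm V) (hα : α ∈ matchings (Ey y)) :
    G (rel (α * h) fun i => y (Sum.inl i)) = FF G y (tr (α * ry h y) (Sy y)) := by
  obtain ⟨-, -, -, -, -, t6, -, t8, t9⟩ := htr V
  have hfix : ∀ x, x ∉ Sy y ∪ Ey y → α x = x := by
    intro x hx
    simp only [matchings, Finset.mem_filter, Finset.mem_univ, true_and] at hα
    have : x ∉ α.support := by
      rw [hα.2]
      exact fun h => hx (Finset.mem_union_right _ h)
    exact Equiv.Perm.notMem_support.1 this
  have e : tr (α * ry h y) (Sy y) = tr (α * h) (Sy y) := by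
    unfold ry
    rw [← t6 h α (Sy y ∪ Ey y) hfix, t8 _ _ _ Finset.subset_union_left]
  unfold FF
  rw [e]
  congr 1
  funext i j
  apply propext
  have hm : ∀ i : Fin m, vv y i ∈ Sy y := fun i =>
    Finset.mem_image_of_mem (fun i : Fin m => y (Sum.inl i)) (Finset.mem_univ i)
  exact (t9 (α * h) (Sy y) (vv y i) (vv y j) (hm i) (hm j)).symm

theorem main (htr : S_tr) (hma : S_match) (hdu : S_dust) (hco : S_core) : S_FB := by
  intro m
  choose C0 hC0 hcore using hco
  refine ⟨∑ n ∈ Finset.range (m + 1), (n.factorial : ℝ) * C0 n, ?_, ?_⟩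
  · apply Finset.sum_pos
    · intro n _
      have := hC0 n
      positivity
    · exact ⟨0, by simp⟩
  set C : ℝ := ∑ n ∈ Finset.range (m + 1), (n.factorial : ℝ) * C0 n with hC
  have hCle : ∀ n ≤ m, (n.factorial : ℝ) * C0 n ≤ C := by
    intro n hn
    rw [hC]
    exact Finset.single_le_sum (f := fun n : ℕ => (n.factorial : ℝ) * C0 n)
      (fun i _ => by have := hC0 i; positivity) (by simp; omega)
  intro V _ _ K h G y hG
  have htr' := htr V
  obtain ⟨-, -, -, t4, t5, t6, -, t8, -⟩ := htr'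
  have hEven : Even (Ey y).card := by rw [card_Ey]; exact ⟨K, by ring⟩
  have hne := hma.1 V (Ey y) hEven
  have hρ : ∀ x, x ∉ Ey y → x ∉ Sy y → ry h y x = x := fun x h1 h2 =>
    t5 h _ x (by rw [Finset.mem_union]; tauto)
  have hDfix : ∀ x ∈ Dy h y, ry h y x = x := fun x hx => (Finset.mem_filter.1 hx).2
  obtain ⟨hd1, hd2⟩ := hdu V (ry h y) (Ey y) (Sy y) (Dy h y) (FF G y) (disj y)
    (Finset.filter_subset _ _) hρ hDfix hEven
  rw [avgM_congr (fun α hα => rel_eq htr h G y α hα), hd1]
  apply avgM_sub_le hne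
  intro α hα
  -- notation
  have hE1 : ((Ey y \ Dy h y).filter fun x => α x ∉ Dy h y) = E1y h y α := rfl
  have hEv1 := hd2 α hα
  rw [hE1] at hEv1 ⊢
  set E1 := E1y h y α with hE1def
  set S1 := S1y h y with hS1def
  have hE1E : E1 ⊆ Ey y := (Finset.filter_subset _ _).trans Finset.sdiff_subset
  have hS1S : S1 ⊆ Sy y := Finset.filter_subset _ _
  have hdisj : Disjoint E1 (Sy y) := Finset.disjoint_of_subset_left hE1E (disj y)
  -- the trace
  have hr1 : tr (ry h y) (E1 ∪ Sy y) = r1y h y α := by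
    have e1 : tr h (E1 ∪ Sy y) = tr (ry h y) (E1 ∪ Sy y) := by
      unfold ry
      rw [t8]
      rw [Finset.union_comm (Sy y)]
      exact Finset.union_subset_union_left hE1E
    have e2 : r1y h y α = tr (tr h (E1 ∪ Sy y)) (E1 ∪ S1) :=
      (t8 h _ _ (Finset.union_subset_union_right hS1S)).symm
    rw [e2, e1, t4 (tr (ry h y) (E1 ∪ Sy y)) (E1 ∪ S1)]
    intro x hx
    by_cases hx' : x ∈ E1 ∪ Sy y
    · apply tr_fix htr
      have h1 : x ∈ Sy y := by
        rcases Finset.mem_union.1 hx' with h | h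
        · exact absurd (Finset.mem_union_left _ h) hx
        · exact h
      by_contra h2
      exact hx (Finset.mem_union_right _ (Finset.mem_filter.2 ⟨h1, h2⟩))
    · exact t5 _ _ _ hx'
  rw [hr1]
  set r1 := r1y h y α with hr1def
  have hr1fix : ∀ x, x ∉ E1 → x ∉ S1 → r1 x = x := fun x h1 h2 =>
    t5 h _ x (by rw [Finset.mem_union]; tauto)
  have htr1 : ∀ β ∈ matchings E1, tr (β * r1) (Sy y) = tr (β * r1) S1 := by
    intro β hβ
    rw [← t8 (β * r1) S1 (Sy y) hS1S, t4 (tr (β * r1) (Sy y)) S1]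
    intro x hx
    by_cases hx' : x ∈ Sy y
    · apply tr_fix htr
      have h1 : x ∉ E1 := fun h => Finset.disjoint_left.1 hdisj h hx'
      have h2 : β x = x := by
        simp only [matchings, Finset.mem_filter, Finset.mem_univ, true_and] at hβ
        have : x ∉ β.support := by rw [hβ.2]; exact h1
        exact Equiv.Perm.notMem_support.1 this
      rw [Equiv.Perm.mul_apply, hr1fix x h1 hx, h2]
    · exact t5 _ _ _ hx'
  rw [avgM_congr (F' := fun β => FF G y (tr (β * r1) S1)) (fun β hβ => by rw [htr1 β hβ])]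
  have hF1 : ∀ τ, |FF G y τ| ≤ 1 := fun τ => hG _
  have h2 : |avgM E1 (fun β => FF G y (tr (β * r1) S1)) - pavg (Ay h y) G| ≤ 2 := by
    have h3 := abs_avgM_le (E := E1) (F := fun β => FF G y (tr (β * r1) S1)) zero_le_one
      (fun β _ => hF1 _)
    have h4 := abs_pavg_le h hG y
    have := abs_sub (avgM E1 (fun β => FF G y (tr (β * r1) S1))) (pavg (Ay h y) G)
    linarith
  have hnum : avgM E1 (fun β => FF G y (tr (β * r1) S1)) - pavg (Ay h y) G =
      ∑ σ ∈ fixp S1, FF G y σ * (favg r1 E1 S1 σ - 1 / (S1.card.factorial : ℝ)) := by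
    rw [avgM_tr htr, pavg_eq, Finset.sum_div, ← Finset.sum_sub_distrib]
    apply Finset.sum_congr rfl
    intro σ _
    ring
  unfold bnd
  rw [← hS1def, ← hr1def, ← hE1def]
  split_ifs with hc1 hc2
  · -- no test points
    have hne1 := hma.1 V E1 hEv1
    rw [hnum, hc1]
    apply le_of_eq
    rw [abs_eq_zero]
    apply Finset.sum_eq_zero
    intro σ hσ
    have hσ1 : σ = 1 := by
      apply Equiv.ext
      intro x
      exact mem_fixp.1 hσ x (Finset.notMem_empty x)
    have hfa : favg r1 E1 ∅ σ = 1 := by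
      unfold favg avgM
      have hn : (0 : ℝ) < (matchings E1).card := by exact_mod_cast hne1.card_pos
      have h5 : ∀ β ∈ matchings E1, (if tr (β * r1) ∅ = σ then (1 : ℝ) else 0) = 1 := by
        intro β _
        rw [if_pos]
        rw [hσ1]
        apply Equiv.ext
        intro x
        exact t5 _ _ x (Finset.notMem_empty x)
      rw [Finset.sum_congr rfl h5, Finset.sum_const, nsmul_eq_mul, mul_one, div_self hn.ne']
    rw [hfa]
    simp
  · exact h2
  · refine le_min h2 ?_
    have hadj : ∀ x ∈ S1, r1 x ∉ S1 := fun x hx hx' => hc2 ⟨x, hx, hx'⟩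
    obtain ⟨x0, hx0⟩ := Finset.nonempty_iff_ne_empty.2 hc1
    have hE1ne : E1.Nonempty := by
      rw [Finset.nonempty_iff_ne_empty]
      intro hE
      have h3 := hadj x0 hx0
      have h4 : r1 (r1 x0) = r1 x0 := hr1fix _ (by rw [hE]; exact Finset.notMem_empty _) h3
      have h5 := r1.injective h4
      rw [h5] at h3
      exact h3 hx0
    have hcardS : S1.card ≤ m := by
      rw [← card_Sy y]
      exact Finset.card_le_card hS1S
    set B : ℝ := C0 S1.card / Real.sqrt E1.card + C0 S1.card * (1 + Wc r1 E1 S1) / E1.card with hB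
    have hB0 : ∀ σ ∈ fixp S1, |favg r1 E1 S1 σ - 1 / (S1.card.factorial : ℝ)| ≤ B := by
      intro σ hσ
      exact hcore S1.card V r1 E1 S1 σ (Finset.disjoint_of_subset_right hS1S hdisj) rfl hEv1
        hE1ne hr1fix (mem_fixp.1 hσ) hadj
    rw [hnum]
    calc |∑ σ ∈ fixp S1, FF G y σ * (favg r1 E1 S1 σ - 1 / (S1.card.factorial : ℝ))|
        ≤ ∑ σ ∈ fixp S1, |FF G y σ * (favg r1 E1 S1 σ - 1 / (S1.card.factorial : ℝ))| :=
          Finset.abs_sum_le_sum_abs _ _
      _ ≤ ∑ _σ ∈ fixp S1, B := by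
          apply Finset.sum_le_sum
          intro σ hσ
          rw [abs_mul]
          have h3 := hB0 σ hσ
          have h4 := mul_le_mul (hF1 σ) h3 (abs_nonneg _) zero_le_one
          linarith
      _ = (S1.card.factorial : ℝ) * B := by
          rw [Finset.sum_const, nsmul_eq_mul, card_fixp]
      _ = ((S1.card.factorial : ℝ) * C0 S1.card) / Real.sqrt E1.card +
          ((S1.card.factorial : ℝ) * C0 S1.card) * (1 + Wc r1 E1 S1) / E1.card := by
          rw [hB]; ring
      _ ≤ C / Real.sqrt E1.card + C * (1 + Wc r1 E1 S1) / E1.card := by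
          have h3 := hCle S1.card hcardS
          gcongr

end main

end Pool.Agent.W397.PD.FB
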